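import Pool.Agent.N974.MF.Lfin
import Pool.Agent.N975.Lat15
import Pool.Agent.N975.SymFin
import Pool.Agent.N875.X15.Rank

/-!
# The twists of `X_0(15)` by `-n`, `n ≡ 23, 47 mod 60`: the analytic side, glued to the symbol
-/

set_option autoImplicit false
set_option linter.style.haveILetI false

open Finset

namespace Pool.Agent.N974.P15

open Pool.Agent.N974.MF
open Pool.Agent.N969.P15
open Pool.Agent.W97.MT (ap)
open Pool.Agent.Y687 (fac SS RankBSD)
open Pool.Agent.N875.X15 (EQm Em)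

theorem hlat : S_LAT := Pool.Agent.N975.Lat15.s_lat

theorem toSymbM {s : ℚ → ℤ} {a : ℕ → ℤ} (h : Symb15 s a) : Pool.Agent.N975.Sym.SymbM s where
  per := h.per
  neg := h.neg
  hecke2 := by
    intro x
    have h1 := h.hecke 2 Nat.prime_two (by norm_num) x
    rw [h.a2, Finset.sum_range_succ, Finset.sum_range_succ, Finset.sum_range_zero] at h1
    push_cast at h1
    rw [zero_add, add_zero] at h1
    linarith
  aff := by
    intro A B C' D hdet x c hco
    have hc : c ≠ 0 := by
      rintro rfl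
      rw [isCoprime_zero_right, Int.isUnit_iff] at hco
      omega
    refine h.aff' hdet hc ?_
    intro h0
    have h3 : IsCoprime (3 : ℤ) c := by
      have : IsCoprime (3 * (5 * x)) c := by
        have e : 3 * (5 * x) = 15 * x := by ring
        rw [e]; exact hco
      exact this.of_mul_left_left
    have h4 : (3 : ℤ) ∣ D * c := ⟨-(5 * C' * x), by linarith⟩
    have h5 : (3 : ℤ) ∣ D := h3.dvd_of_dvd_mul_right h4
    obtain ⟨k, hk⟩ := h5
    have : (3 : ℤ) ∣ 1 := ⟨A * k - B * (5 * C'), by rw [← hdet, hk]; ring⟩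
    norm_num at this

/-- the `L`-function of the twist by `-n` does not vanish at `1` -/
theorem Lne (hD : S_DIAG) (hP : S_PAR) {n : ℕ} (hn : Cls0 n) (hQ : Qc n) :
    ∃ f : ℂ → ℂ, Differentiable ℂ f ∧
      (∀ s : ℂ, (3 : ℝ) / 2 < s.re →
        HasProd (fun p : {p : ℕ // p.Prime ∧
            ¬ ((p : ℤ) ∣ 2 * (4 * (-12987 * (-(n : ℤ)) ^ 2) ^ 3 +
              27 * (-263466 * (-(n : ℤ)) ^ 3) ^ 2))} =>
          fac (-12987 * (-(n : ℤ)) ^ 2) (-263466 * (-(n : ℤ)) ^ 3) s p) (f s)) ∧ f 1 ≠ 0 := by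
  obtain ⟨sp, sm, Op, Om, hOp, hOm, hs, -, -, hsm⟩ := exists_symb hlat
  have habs : (-(n : ℤ)).natAbs = n := by rw [Int.natAbs_neg, Int.natAbs_natCast]
  obtain ⟨hsq, h60⟩ := hn
  have h14 : sm (1 / 4) ≠ 0 := by
    have h1 := hsm.s14
    have h2 := hsm.odd3 (1 / 3) (by norm_num) (by norm_num)
    intro h0
    rw [h0] at h1
    obtain ⟨k, hk⟩ := h2
    omega
  refine exists_f_neD hlat (-(n : ℤ)) ?_ ?_ ?_ ?_ hOp hOm hs ?_
  · intro x hx
    rw [dvd_neg] at hx
    exact Int.squarefree_natCast.2 hsq x hx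
  · rw [habs]; omega
  · omega
  · rw [habs]
    exact (Pool.Agent.N975.Sym.cls0_cop ⟨hsq, h60⟩).symm
  · right
    rw [habs]
    exact Pool.Agent.N975.Sym.sum_symb_ne hD hP (toSymbM hsm) h14 ⟨hsq, h60⟩ hQ

/-- finitely many points on the short model -/
theorem fin_short {m : ℤ} (hm : m ≠ 0) (h : Finite (EQm m).toAffine.Point) :
    {q : ℚ × ℚ | q.2 ^ 2 = q.1 ^ 3 + ((-12987 * m ^ 2 : ℤ) : ℚ) * q.1 +
      ((-263466 * m ^ 3 : ℤ) : ℚ)}.Finite := by
  have hm' : (m : ℚ) ≠ 0 := by exact_mod_cast hm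
  -- the equation
  have heq : ∀ x y : ℚ, y ^ 2 = x ^ 3 + ((-12987 * m ^ 2 : ℤ) : ℚ) * x +
      ((-263466 * m ^ 3 : ℤ) : ℚ) → (EQm m).toAffine.Equation ((x + 21 * m) / 9) (y / 27) := by
    intro x y hxy
    rw [WeierstrassCurve.Affine.equation_iff]
    simp only [Em, WeierstrassCurve.map_a₁, WeierstrassCurve.map_a₂, WeierstrassCurve.map_a₃,
      WeierstrassCurve.map_a₄, WeierstrassCurve.map_a₆, eq_intCast]
    push_cast at hxy ⊢
    linear_combination (1 / 729 : ℚ) * hxy
  have hns : ∀ x y : ℚ, (EQm m).toAffine.Equation x y → (EQm m).toAffine.Nonsingular x y := by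
    intro x y hxy
    rw [WeierstrassCurve.Affine.nonsingular_iff]
    refine ⟨hxy, ?_⟩
    rw [WeierstrassCurve.Affine.equation_iff] at hxy
    simp only [Em, WeierstrassCurve.map_a₁, WeierstrassCurve.map_a₂, WeierstrassCurve.map_a₃,
      WeierstrassCurve.map_a₄, WeierstrassCurve.map_a₆, eq_intCast] at hxy ⊢
    push_cast at hxy ⊢
    by_cases hy : y = 0
    · left
      subst hy
      intro h0
      have h1 : x * (x + 9 * m) * (x - 16 * m) = 0 := by linear_combination -hxy
      have h3 : (m : ℚ) ^ 2 ≠ 0 := pow_ne_zero 2 hm'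
      rcases mul_eq_zero.1 h1 with h2 | h2
      · rcases mul_eq_zero.1 h2 with h4 | h4
        · apply h3
          rw [h4] at h0
          linear_combination (1 / 144 : ℚ) * h0
        · apply h3
          have h5 : x = -9 * m := by linear_combination h4
          rw [h5] at h0
          linear_combination (-1 / 225 : ℚ) * h0
      · apply h3
        have h5 : x = 16 * m := by linear_combination h2
        rw [h5] at h0
        linear_combination (-1 / 400 : ℚ) * h0
    · right
      intro h0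
      apply hy
      linear_combination (1 / 2 : ℚ) * h0
  rw [← Set.finite_coe_iff]
  refine Finite.of_injective (β := (EQm m).toAffine.Point)
    (fun q => WeierstrassCurve.Affine.Point.some ((q.1.1 + 21 * m) / 9) (q.1.2 / 27)
      (hns _ _ (heq _ _ q.2))) ?_
  intro q q' hqq
  simp only [WeierstrassCurve.Affine.Point.some.injEq] at hqq
  obtain ⟨h1, h2⟩ := hqq
  apply Subtype.ext
  apply Prod.ext
  · linear_combination 9 * h1
  · linear_combination 27 * h2

/-- the rank form of BSD from the two sides -/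
theorem rank_form (hD : S_DIAG) (hP : S_PAR) {n : ℕ} (hn : Cls0 n) (hQ : Qc n)
    (hfin : Finite (EQm (-(n : ℤ))).toAffine.Point) :
    RankBSD (-12987 * (-(n : ℤ)) ^ 2) (-263466 * (-(n : ℤ)) ^ 3) := by
  obtain ⟨f, hf, hfp, hf1⟩ := Lne hD hP hn hQ
  have hn0 : (-(n : ℤ)) ≠ 0 := by
    have := hn.1.ne_zero
    omega
  exact Pool.Agent.Y687.rankBSD hf hfp hf1 (fin_short hn0 hfin)

end Pool.Agent.N974.P15
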