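import Pool.Agent.N973.P15.DIAG3

/-!
# P15: the assembly of the diagonal identity for the classes with `15 ∣ n`
-/

set_option autoImplicit false

namespace Pool.Agent.N974.P15

open Finset
open Pool.Agent.N969.P15
open Pool.Agent.N973.P15
open Pool.Agent.Z700 (hh fac)

theorem erase3 {D : ℕ} (h : ¬ 3 ∣ D) : (D.primeFactors.erase 2).erase 3 = D.primeFactors.erase 2 := by
  refine Finset.erase_eq_of_notMem fun h3 => h ?_
  exact Nat.dvd_of_mem_primeFactors (Finset.mem_of_mem_erase h3)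

theorem lc5_eq (n : ℕ) {D : ℕ} (h : ¬ 3 ∣ D) : lc5 n D = loc5 n D := by
  unfold lc5 loc5
  rw [erase3 h]

theorem lc5E_eq (n : ℕ) (b : ℤ) {D : ℕ} (h : ¬ 3 ∣ D) : lc5E n b D = loc5E n b D := by
  unfold lc5E loc5E
  rw [erase3 h]

theorem loc5_odd (n D : ℕ) (h : ¬ 2 ∣ D) : loc5 n D = 0 := by
  unfold loc5 tw
  rw [Nat.factorization_eq_zero_of_not_dvd h]
  simp

theorem loc5E_odd (n : ℕ) {b : ℤ} (D : ℕ) (h : ¬ (2 : ℤ) ∣ b) : loc5E n b D = 0 := by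
  unfold loc5E
  rw [tb_odd h]
  simp

theorem tb_neg (b : ℤ) : tb (-b) = tb b := by
  unfold tb
  have q1 : (-b) % 4 = 0 ↔ b % 4 = 0 := by omega
  have q2 : (-b) % 4 = 2 ↔ b % 4 = 2 := by omega
  simp only [q1, q2]

theorem n3_D {N T : ℕ} (h3 : 3 ∣ N) (hT : T < N) (h : ¬ 3 ∣ T) (k : ℕ) (hk : ¬ 3 ∣ k) :
    ¬ 3 ∣ k * (N - T) * T := by
  intro h1
  rcases (Nat.Prime.dvd_mul Nat.prime_three).1 h1 with h1 | h1
  · rcases (Nat.Prime.dvd_mul Nat.prime_three).1 h1 with h1 | h1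
    · exact hk h1
    · omega
  · exact h h1

/-- **DIAG15** -/
theorem t_DIAG15 (h1b : S_C1B) (h2a : S_C25A) (h2b : S_C25B) (hPC : S_PC5) (hR : S_REL33)
    (hHE : S_HE3) : S_DIAG15 := by
  intro n hn
  obtain ⟨hs, h4, h3, h5⟩ := id hn
  have hn0 : n ≠ 0 := hs.ne_zero
  have h9 : ¬ 9 ∣ n := by
    intro h
    have := hs 3 (by exact h)
    rw [Nat.isUnit_iff] at this
    omega
  have hC : ∀ n2 : ℕ, ∀ (b : ℤ) (D : ℕ), ¬ (3 : ℤ) ∣ b → 0 < D → (D : ℤ) = n * n2 - b ^ 2 →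
      (cp n b n2 : ℤ) = 3 * (fun (_ : ℤ) (D : ℕ) => loc5 n D) b D :=
    fun n2 b D _ hD hDD => hPC n n2 b D hs h4 h5 hD hDD
  have hz : ∀ n2 N : ℕ, n * n2 = N ^ 2 → ∀ (b : ℤ) (D : ℕ), ¬ (2 : ℤ) ∣ N - b → 0 < D →
      (D : ℤ) = n * n2 - b ^ 2 → (fun (_ : ℤ) (D : ℕ) => loc5 n D) b D = 0 :=
    fun n2 N hN b D hb _ hDD => loc5_odd n D (odd_D hN b D hb hDD)
  have k1 := BIL_3 hR 3 (fun _ D => loc5 n D) (hC n) (hz n n (sq n).symm) (sq n).symm h3 h5 h3 h9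
    h3 h9
  have k2 := BIL_3 hR (n2 := 4 * n) (N := 2 * n) 3 (fun _ D => loc5 n D) (hC (4 * n))
    (hz (4 * n) (2 * n) (by ring)) (by ring) (by omega) (by omega) h3 h9 (by omega) (by omega)
  obtain ⟨k3, k4⟩ := hHE n h4 h3 h9
  have e4 : ((4 * n : ℕ) : ℤ) = 4 * (n : ℤ) := by push_cast; rfl
  rw [e4] at k2
  have k5 : cc (4 * n) = -(1 + ep2 n) * cc n := by
    unfold cc
    have m1 : (4 * (n : ℤ)) % 3 = 0 := by omega
    have m2 : (n : ℤ) % 3 = 0 := by omega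
    rw [if_pos m1, if_pos m2, k3, k4]
    ring
  rw [k3, k5] at k2
  have w1 : 2 * WXA (fun u => jacobiSym u n) n n =
      -∑ T ∈ (range n).filter (fun T => 5 ∣ T ∧ ¬ 3 ∣ T), loc5 n (4 * (n - T) * T) := by
    rw [WXA_odd h1b hs h4 (Or.inl rfl), sum_n3 _ (fun T hT => WWA_zero hn0 h3 hT),
      ← Finset.sum_neg_distrib, Finset.mul_sum]
    refine Finset.sum_congr rfl fun T hT => ?_
    rw [mem_filter, mem_range] at hT
    rw [h2a n (Or.inl hn) T (Nat.pos_of_ne_zero (by rintro rfl; omega)) hT.1 hT.2.1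
      (fun _ => hT.2.2), lc5_eq n (n3_D h3 hT.1 hT.2.2 4 (by norm_num))]
  have w2 : 2 * WXA (fun u => jacobiSym u n) n (2 * n) =
      -(∑ T ∈ (range (2 * n)).filter (fun T => 5 ∣ T ∧ ¬ 3 ∣ T), loc5 n (4 * (2 * n - T) * T) +
        ep2 n * ∑ T ∈ (range n).filter (fun T => 5 ∣ T ∧ ¬ 3 ∣ T), loc5 n (4 * (n - T) * T)) := by
    rw [WXA_odd h1b hs h4 (Or.inr rfl), sum_n3 _ (fun T hT => WWA_zero hn0 h3 hT),
      ← sum_dbl, ← Finset.sum_add_distrib, ← Finset.sum_neg_distrib, Finset.mul_sum]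
    refine Finset.sum_congr rfl fun T hT => ?_
    rw [mem_filter, mem_range] at hT
    have hD := n3_D (show 3 ∣ 2 * n by omega) hT.1 hT.2.2 1 (by norm_num)
    rw [one_mul] at hD
    rw [h2b n (Or.inl hn) T (Nat.pos_of_ne_zero (by rintro rfl; omega)) hT.1 hT.2.1
      (fun _ => hT.2.2), lc5_eq n (n3_D (by omega) hT.1 hT.2.2 4 (by norm_num)), lc5_eq n hD]
  rw [CA.t_C1AA n (by omega) (fun u => jacobiSym u n) (fun u => C.jac_odd h4 u)]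
  generalize (∑ T ∈ (range n).filter (fun T => 5 ∣ T ∧ ¬ 3 ∣ T), loc5 n (4 * (n - T) * T)) = S1
    at k1 w1 w2
  generalize (∑ T ∈ (range (2 * n)).filter (fun T => 5 ∣ T ∧ ¬ 3 ∣ T),
    loc5 n (4 * (2 * n - T) * T)) = S2 at k2 w2
  generalize WXA (fun u => jacobiSym u n) n n = W1 at w1 ⊢
  generalize WXA (fun u => jacobiSym u n) n (2 * n) = W2 at w2 ⊢
  have k7 : 4 * (9 * (2 * (W2 - 3 * W1))) = 4 * -cc n ^ 2 := by
    linear_combination (3 - ep2 n) * k1 - k2 + 36 * w2 - 108 * w1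
  linarith

/-- **DIAG15E** -/
theorem t_DIAG15E (h1b : S_C1BE) (h2 : S_C25E) (hPC : S_PC5E) (hR : S_REL33)
    (hHE : S_HE3E) : S_DIAG15E := by
  intro n hn
  obtain ⟨hev, h3, h5⟩ := id hn
  obtain ⟨m, rfl, hs, hm⟩ := id hev
  have hn0 : 4 * m ≠ 0 := by
    have := hs.ne_zero
    omega
  have h3m : 3 ∣ m := by omega
  have h9m : ¬ 9 ∣ m := by
    intro h
    have := hs 3 (by exact h)
    rw [Nat.isUnit_iff] at this
    omega
  have h9 : ¬ 9 ∣ 4 * m := by omega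
  have hC : ∀ n2 : ℕ, 4 ∣ n2 → ∀ (b : ℤ) (D : ℕ), ¬ (3 : ℤ) ∣ b → 0 < D →
      (D : ℤ) = (4 * m : ℕ) * n2 - b ^ 2 →
      (cp (4 * m : ℕ) b n2 : ℤ) = 3 * loc5E (4 * m) b D :=
    fun n2 h4 b D _ hD hDD => hPC (4 * m) n2 b D hev h5 h4 hD hDD
  have hz : ∀ n2 N : ℕ, 2 ∣ N → ∀ (b : ℤ) (D : ℕ), ¬ (2 : ℤ) ∣ N - b → 0 < D →
      (D : ℤ) = (4 * m : ℕ) * n2 - b ^ 2 → loc5E (4 * m) b D = 0 :=
    fun n2 N hN b D hb _ _ => loc5E_odd _ D (by omega)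
  have k1 := BIL_3 hR 3 (loc5E (4 * m)) (hC (4 * m) (dvd_mul_right 4 m))
    (hz (4 * m) (4 * m) (by omega)) (sq (4 * m)).symm h3 h5 h3 h9 h3 h9
  have k2 := BIL_3 hR (n2 := 4 * (4 * m)) (N := 2 * (4 * m)) 3 (loc5E (4 * m))
    (hC (4 * (4 * m)) (dvd_mul_right 4 _)) (hz (4 * (4 * m)) (2 * (4 * m)) (by omega)) (by ring)
    (by omega) (by omega) h3 h9 (by omega) (by omega)
  obtain ⟨k3, k4⟩ := hHE m hm h3m h9m
  have e16 : ((4 * (4 * m) : ℕ) : ℤ) = 16 * (m : ℤ) := by push_cast; ring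
  have e4 : ((4 * m : ℕ) : ℤ) = 4 * (m : ℤ) := by push_cast; ring
  have k5 : cc (16 * m) = -cc (4 * m) := by
    unfold cc
    have m1 : (16 * (m : ℤ)) % 3 = 0 := by omega
    have m2 : (4 * (m : ℤ)) % 3 = 0 := by omega
    rw [if_pos m1, if_pos m2, k3, k4]
    ring
  rw [e16, e4, k3, k5] at k2
  rw [e4] at k1
  have w : ∀ N : ℕ, (N = 4 * m ∨ N = 2 * (4 * m)) → 2 * WXA (chE (4 * m)) (4 * m) N =
      -∑ T ∈ (range N).filter (fun T => 5 ∣ T ∧ ¬ 3 ∣ T),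
        loc5E (4 * m) ((N : ℤ) - 2 * T) (4 * (N - T) * T) := by
    intro N hN
    rw [WXA_even h1b hev hN, sum_n3 _ (fun T hT => WWAe_zero hn0 h3 hT), ← Finset.sum_neg_distrib,
      Finset.mul_sum]
    refine Finset.sum_congr rfl fun T hT => ?_
    rw [mem_filter, mem_range] at hT
    rw [h2 (4 * m) (Or.inl hn) N hN T (Nat.pos_of_ne_zero (by rintro rfl; omega)) hT.1 hT.2.1
      (fun _ => hT.2.2), lc5E_eq _ _ (n3_D (by omega) hT.1 hT.2.2 4 (by norm_num))]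
    have hb : tb ((T : ℤ) - ((N - T : ℕ) : ℤ)) = tb ((N : ℤ) - 2 * T) := by
      have e : (T : ℤ) - ((N - T : ℕ) : ℤ) = -((N : ℤ) - 2 * T) := by
        rw [Nat.cast_sub hT.1.le]
        ring
      rw [e, tb_neg]
    unfold loc5E
    rw [hb]
  have w1 := w _ (Or.inl rfl)
  have w2 := w _ (Or.inr rfl)
  rw [CA.t_C1AA (4 * m) (by omega) (chE (4 * m)) (fun u => C.chE_odd hev u)]
  have e8 : ((2 * (4 * m) : ℕ) : ℤ) = 2 * (4 * (m : ℤ)) := by push_cast; ring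
  rw [e4] at w1
  rw [e8] at k2 w2
  rw [e4]
  generalize (∑ T ∈ (range (4 * m)).filter (fun T => 5 ∣ T ∧ ¬ 3 ∣ T),
    loc5E (4 * m) (4 * (m : ℤ) - 2 * T) (4 * (4 * m - T) * T)) = S1 at k1 w1
  generalize (∑ T ∈ (range (2 * (4 * m))).filter (fun T => 5 ∣ T ∧ ¬ 3 ∣ T),
    loc5E (4 * m) (2 * (4 * (m : ℤ)) - 2 * T) (4 * (2 * (4 * m) - T) * T)) = S2 at k2 w2
  generalize WXA (chE (4 * m)) (4 * m) (4 * m) = W1 at w1 ⊢
  generalize WXA (chE (4 * m)) (4 * m) (2 * (4 * m)) = W2 at w2 ⊢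
  have k7 : 4 * (9 * (2 * (W2 - 3 * W1))) = 4 * -cc (4 * m) ^ 2 := by
    linear_combination 3 * k1 - k2 + 36 * w2 - 108 * w1
  linarith

end Pool.Agent.N974.P15
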