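import Pool.Agent.N974.P15.DIAG15

/-!
# P15: the assembly of the diagonal identity for the classes with `5 ∣ n`, `3` split
-/

set_option autoImplicit false

namespace Pool.Agent.N974.P15

open Finset
open Pool.Agent.N969.P15
open Pool.Agent.N973.P15
open Pool.Agent.Z700 (hh fac)

theorem ip_zero {x : V3} (h : ip x x = 0) (i : Fin 3) : x i = 0 := by
  have h0 := le0 x
  have h1 := le1 x
  have h2 := le2 x
  rw [h] at h0 h1 h2
  fin_cases i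
  · exact pow_eq_zero_iff (two_ne_zero) |>.1 (le_antisymm h0 (sq_nonneg _))
  · exact pow_eq_zero_iff (two_ne_zero) |>.1 (le_antisymm h1 (sq_nonneg _))
  · exact pow_eq_zero_iff (two_ne_zero) |>.1 (le_antisymm h2 (sq_nonneg _))

theorem ip_comb (a b : ℤ) (v w : V3) : ip (fun i => a * v i - b * w i) (fun i => a * v i - b * w i) =
    a ^ 2 * ip v v - 2 * (a * b) * ip v w + b ^ 2 * ip w w := by
  unfold ip
  ring

/-- the terms of discriminant zero cancel -/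
theorem cp_D0 {n1 n2 : ℕ} (h2 : n2 % 3 = 2) {b : ℤ} (hb : b ^ 2 = n1 * n2) :
    (cp n1 b n2 : ℤ) - cp3 n1 b n2 = 0 := by
  have e : cp3 n1 b n2 = cp n1 b n2 := by
    unfold cp3 cp
    congr 1
    refine Finset.filter_congr ?_
    rintro ⟨v, w⟩ hq
    rw [Finset.mem_product, mem_vec, mem_vec] at hq
    obtain ⟨hv, hw⟩ := hq
    simp only at hv hw ⊢
    constructor
    · exact fun h => h.1
    · intro h
      refine ⟨h, fun i => ?_⟩
      have h0 : ip (fun i => (n2 : ℤ) * v i - b * w i) (fun i => (n2 : ℤ) * v i - b * w i) = 0 := by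
        rw [ip_comb, hv, hw, h]
        linear_combination (-(n2 : ℤ)) * hb
      have h3 : (n2 : ℤ) * v i - b * w i = 0 := ip_zero h0 i
      have h4 : v i + b * w i = (1 + n2) * v i := by linarith
      rw [h4]
      exact Dvd.dvd.mul_right (by omega) _
  rw [e, sub_self]

/-- the sum over the inner products and the sum over `T` -/
theorem sum_T5 {N : ℕ} (h5 : 5 ∣ N) (g : ℤ → ℤ)
    (hg : ∀ b : ℤ, -(N : ℤ) < b → b < N → (¬ (2 : ℤ) ∣ N - b ∨ ¬ (5 : ℤ) ∣ b) → g b = 0) :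
    ∑ b ∈ Ioo (-(N : ℤ)) (N : ℤ), g b =
    ∑ T ∈ (range N).filter (fun T => 0 < T ∧ 5 ∣ T), g ((N : ℤ) - 2 * T) := by
  rw [← Finset.sum_filter_add_sum_filter_not _ (fun b : ℤ => (2 : ℤ) ∣ N - b ∧ (5 : ℤ) ∣ b)]
  have h2 : ∑ b ∈ (Ioo (-(N : ℤ)) (N : ℤ)).filter
      (fun b : ℤ => ¬ ((2 : ℤ) ∣ N - b ∧ (5 : ℤ) ∣ b)), g b = 0 := by
    refine Finset.sum_eq_zero fun b hb => ?_
    obtain ⟨h6, h7⟩ := Finset.mem_filter.1 hb
    obtain ⟨h9, h10⟩ := Finset.mem_Ioo.1 h6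
    refine hg b h9 h10 ?_
    by_cases h : (2 : ℤ) ∣ N - b
    · exact Or.inr fun h' => h7 ⟨h, h'⟩
    · exact Or.inl h
  rw [h2, add_zero]
  refine Finset.sum_bij' (fun b _ => (((N : ℤ) - b) / 2).toNat) (fun T _ => (N : ℤ) - 2 * T) ?_ ?_ ?_ ?_ ?_
  · intro b hb
    obtain ⟨h6, h7, h8⟩ := Finset.mem_filter.1 hb
    obtain ⟨h9, h10⟩ := Finset.mem_Ioo.1 h6
    rw [Finset.mem_filter, Finset.mem_range]
    obtain ⟨c, hc⟩ := h7
    have h14 : ((N : ℤ) - b) / 2 = c := by omega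
    rw [h14]
    refine ⟨by omega, by omega, ?_⟩
    omega
  · intro T hT
    rw [Finset.mem_filter, Finset.mem_range] at hT
    obtain ⟨h6, h7, h8⟩ := hT
    rw [Finset.mem_filter, Finset.mem_Ioo]
    exact ⟨⟨by omega, by omega⟩, by omega, by omega⟩
  · intro b hb
    obtain ⟨h6, h7, h8⟩ := Finset.mem_filter.1 hb
    obtain ⟨h9, h10⟩ := Finset.mem_Ioo.1 h6
    omega
  · intro T hT
    omega
  · intro b hb
    obtain ⟨h6, h7, h8⟩ := Finset.mem_filter.1 hb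
    obtain ⟨h9, h10⟩ := Finset.mem_Ioo.1 h6
    congr 1
    omega

/-- the sum over all inner products -/
theorem sum_all {n1 n2 : ℕ} (h1 : n1 % 3 = 2) (h2 : n2 % 3 = 2) (hR : S_REL5) (h5 : 5 ∣ n1)
    (h5' : 5 ∣ n2) {B : ℤ} (hB : (n1 : ℤ) * n2 < B ^ 2) (hB0 : 0 < B) :
    3 * ∑ b ∈ Ioo (-B) B, (if (3 : ℤ) ∣ b then 2 * (cp n1 b n2 : ℤ)
      else (cp n1 b n2 : ℤ) - cp3 n1 b n2) = 3 * rr n1 * rr n2 - cc n1 * cc n2 := by
  have e0 : ∑ b ∈ Ioo (-B) B, (cp n1 b n2 : ℤ) = rr n1 * rr n2 := by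
    have h := fibs hB hB0 (fun _ => True)
    rw [Finset.filter_true, Finset.filter_true] at h
    rw [h, Finset.card_product]
    unfold rr
    push_cast
    ring
  have e1 := hR n1 n2 h1 h2 h5 h5' 1 (Or.inl rfl) B hB hB0
  have e2 := hR n1 n2 h1 h2 h5 h5' 2 (Or.inr rfl) B hB hB0
  rw [Finset.sum_filter] at e1 e2
  have e3 : ∑ b ∈ Ioo (-B) B, (if (3 : ℤ) ∣ b then 2 * (cp n1 b n2 : ℤ)
      else (cp n1 b n2 : ℤ) - cp3 n1 b n2) = 2 * ∑ b ∈ Ioo (-B) B, (cp n1 b n2 : ℤ) -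
      ∑ b ∈ Ioo (-B) B, (if b % 3 = 1 then ((cp n1 b n2 : ℤ) + cp3 n1 b n2) else 0) -
      ∑ b ∈ Ioo (-B) B, (if b % 3 = 2 then ((cp n1 b n2 : ℤ) + cp3 n1 b n2) else 0) := by
    rw [Finset.mul_sum, ← Finset.sum_sub_distrib, ← Finset.sum_sub_distrib]
    refine Finset.sum_congr rfl fun b _ => ?_
    rcases (by omega : b % 3 = 0 ∨ b % 3 = 1 ∨ b % 3 = 2) with h | h | h
    · rw [if_pos (by omega), if_neg (by omega), if_neg (by omega)]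
      ring
    · rw [if_neg (by omega), if_pos h, if_neg (by omega)]
      ring
    · rw [if_neg (by omega), if_neg (by omega), if_pos h]
      ring
  rw [e3, e0]
  linarith

theorem sum_Ioo {N : ℕ} (hN : 0 < N) (h : ℤ → ℤ) (h1 : h N = 0) (h2 : h (-N) = 0) :
    ∑ b ∈ Ioo (-((N : ℤ) + 1)) ((N : ℤ) + 1), h b = ∑ b ∈ Ioo (-(N : ℤ)) (N : ℤ), h b := by
  symm
  refine Finset.sum_subset ?_ ?_
  · intro b hb
    rw [Finset.mem_Ioo] at hb ⊢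
    omega
  · intro b hb hb'
    rw [Finset.mem_Ioo] at hb hb'
    have : b = N ∨ b = -N := by omega
    rcases this with rfl | rfl
    · exact h1
    · exact h2

/-- **the bilinear identities**, `5 ∣ n`, `n % 3 = 2` -/
theorem BIL_5 (hR : S_REL5) {n n2 N : ℕ} (L : ℤ → ℕ → ℤ)
    (hC : ∀ (b : ℤ) (D : ℕ), ¬ (3 : ℤ) ∣ b → 0 < D → (D : ℤ) = n * n2 - b ^ 2 →
      (cp n b n2 : ℤ) - cp3 n b n2 = 6 * L b D)
    (hC' : ∀ (b : ℤ) (D : ℕ), (3 : ℤ) ∣ b → 0 < D → (D : ℤ) = n * n2 - b ^ 2 →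
      (cp n b n2 : ℤ) = 3 * L b D)
    (hz : ∀ (b : ℤ) (D : ℕ), ¬ (2 : ℤ) ∣ N - b → 0 < D → (D : ℤ) = n * n2 - b ^ 2 → L b D = 0)
    (hz5 : ∀ (b : ℤ) (D : ℕ), ¬ 5 ∣ D → L b D = 0)
    (hN : n * n2 = N ^ 2) (hN0 : 0 < N) (hN5 : 5 ∣ N) (h1 : n % 3 = 2) (h2 : n2 % 3 = 2)
    (h5 : 5 ∣ n) (h5' : 5 ∣ n2) :
    18 * ∑ T ∈ (range N).filter (fun T => 0 < T ∧ 5 ∣ T), L ((N : ℤ) - 2 * T) (4 * (N - T) * T) =
      3 * rr n * rr n2 - cc n * cc n2 := by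
  have hNN : (n : ℤ) * n2 = (N : ℤ) ^ 2 := by exact_mod_cast hN
  have hN3 : ¬ 3 ∣ N := by
    intro h
    have h3 : 3 ∣ n * n2 := by
      rw [hN, sq]
      exact Dvd.dvd.mul_right h N
    rcases (Nat.Prime.dvd_mul Nat.prime_three).1 h3 with h | h <;> omega
  have hN3' : ¬ (3 : ℤ) ∣ (N : ℤ) := by omega
  have key := sum_all h1 h2 hR h5 h5' (B := (N : ℤ) + 1) (by
      rw [hNN]
      have : (0 : ℤ) ≤ N := Int.natCast_nonneg N
      nlinarith) (by omega)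
  rw [sum_Ioo hN0] at key
  · have hval : ∀ b ∈ Ioo (-(N : ℤ)) (N : ℤ), (if (3 : ℤ) ∣ b then 2 * (cp n b n2 : ℤ)
        else (cp n b n2 : ℤ) - cp3 n b n2) = 6 * L b ((N : ℤ) ^ 2 - b ^ 2).toNat := by
      intro b hb
      obtain ⟨hb1, hb2⟩ := Finset.mem_Ioo.1 hb
      have e : (N : ℤ) ^ 2 - b ^ 2 = (N - b) * (N + b) := by ring
      have hpos : 0 < (N : ℤ) ^ 2 - b ^ 2 := by
        rw [e]
        exact mul_pos (by omega) (by omega)
      have hD : (((N : ℤ) ^ 2 - b ^ 2).toNat : ℤ) = n * n2 - b ^ 2 := by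
        rw [Int.toNat_of_nonneg hpos.le, hNN]
      split_ifs with h3
      · rw [hC' b _ h3 (by omega) hD]
        ring
      · rw [hC b _ h3 (by omega) hD]
    rw [Finset.sum_congr rfl hval, ← Finset.mul_sum, sum_T5 hN5] at key
    · have hT : ∀ T ∈ (range N).filter (fun T => 0 < T ∧ 5 ∣ T),
          L ((N : ℤ) - 2 * T) ((N : ℤ) ^ 2 - ((N : ℤ) - 2 * T) ^ 2).toNat =
            L ((N : ℤ) - 2 * T) (4 * (N - T) * T) := by
        intro T hT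
        rw [Finset.mem_filter, Finset.mem_range] at hT
        congr 1
        have e : (N : ℤ) ^ 2 - ((N : ℤ) - 2 * T) ^ 2 = ((4 * (N - T) * T : ℕ) : ℤ) := by
          push_cast [Nat.cast_sub hT.1.le]
          ring
        rw [e, Int.toNat_natCast]
      rw [Finset.sum_congr rfl hT] at key
      linarith
    · intro b hb1 hb2 hb
      have e : (N : ℤ) ^ 2 - b ^ 2 = (N - b) * (N + b) := by ring
      have hpos : 0 < (N : ℤ) ^ 2 - b ^ 2 := by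
        rw [e]
        exact mul_pos (by omega) (by omega)
      have hD : (((N : ℤ) ^ 2 - b ^ 2).toNat : ℤ) = n * n2 - b ^ 2 := by
        rw [Int.toNat_of_nonneg hpos.le, hNN]
      rcases hb with hb | hb
      · exact hz b _ hb (by omega) hD
      · refine hz5 b _ fun h => hb ?_
        have h6 : (5 : ℤ) ∣ (N : ℤ) ^ 2 - b ^ 2 := by
          rw [← Int.toNat_of_nonneg hpos.le]
          exact_mod_cast h
        have h7 : (5 : ℤ) ∣ (N : ℤ) ^ 2 := Dvd.dvd.pow (by exact_mod_cast hN5) two_ne_zero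
        have h8 : (5 : ℤ) ∣ b ^ 2 := by
          have := dvd_sub h7 h6
          have e' : (N : ℤ) ^ 2 - ((N : ℤ) ^ 2 - b ^ 2) = b ^ 2 := by ring
          rwa [e'] at this
        exact Int.Prime.dvd_pow' (by norm_num) h8
  · rw [if_neg hN3']
    exact cp_D0 h2 (by rw [hNN])
  · rw [if_neg (by omega)]
    exact cp_D0 h2 (by rw [hNN]; ring)

theorem D_mod3 {n n2 : ℕ} {b : ℤ} {D : ℕ} (h1 : n % 3 = 2) (h2 : n2 % 3 = 2) (hb : (3 : ℤ) ∣ b)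
    (hD : (D : ℤ) = n * n2 - b ^ 2) : ¬ 3 ∣ D := by
  intro h
  have h3 : (3 : ℤ) ∣ (D : ℤ) := by exact_mod_cast h
  have h4 : (3 : ℤ) ∣ b ^ 2 := Dvd.dvd.pow hb two_ne_zero
  have h5 : (3 : ℤ) ∣ (n : ℤ) * n2 := by
    have := dvd_add h3 h4
    rw [hD] at this
    have e : (n : ℤ) * n2 - b ^ 2 + b ^ 2 = n * n2 := by ring
    rwa [e] at this
  rcases Int.Prime.dvd_mul' (p := 3) (by norm_num) h5 with h | h
  · push_cast at h; omega
  · push_cast at h; omega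

theorem lc5_odd (n D : ℕ) (h : ¬ 2 ∣ D) : lc5 n D = 0 := by
  unfold lc5 tw
  rw [Nat.factorization_eq_zero_of_not_dvd h]
  simp

theorem lc5E_odd (n : ℕ) {b : ℤ} (D : ℕ) (h : ¬ (2 : ℤ) ∣ b) : lc5E n b D = 0 := by
  unfold lc5E
  rw [tb_odd h]
  simp

theorem lc5_n5 (n D : ℕ) (h : ¬ 5 ∣ D) : lc5 n D = 0 := by
  unfold lc5
  rw [if_neg h]

theorem lc5E_n5 (n : ℕ) (b : ℤ) (D : ℕ) (h : ¬ 5 ∣ D) : lc5E n b D = 0 := by
  unfold lc5E
  rw [if_neg h]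

theorem WWA_T0 (n S : ℕ) : WWA n S 0 = 0 := by
  unfold WWA
  simp

theorem WWAe_T0 (n S : ℕ) : WWAe n S 0 = 0 := by
  unfold WWAe
  simp

theorem sum_T0 {N : ℕ} (W : ℕ → ℤ) (hW : W 0 = 0) :
    ∑ T ∈ (range N).filter (fun T => 5 ∣ T), W T =
      ∑ T ∈ (range N).filter (fun T => 0 < T ∧ 5 ∣ T), W T := by
  symm
  refine Finset.sum_subset ?_ ?_
  · intro T hT
    rw [Finset.mem_filter] at hT ⊢
    exact ⟨hT.1, hT.2.2⟩
  · intro T hT hT'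
    rw [Finset.mem_filter] at hT hT'
    have : T = 0 := by
      by_contra h
      exact hT' ⟨hT.1, Nat.pos_of_ne_zero h, hT.2⟩
    rw [this, hW]

/-- doubling in the sum over `T` -/
theorem sum_dbl5 {n : ℕ} (e : ℤ) (L : ℕ → ℤ) :
    ∑ T ∈ (range (2 * n)).filter (fun T => 0 < T ∧ 5 ∣ T),
      (if 2 ∣ T then e * L ((2 * n - T) * T) else 0) =
    e * ∑ T ∈ (range n).filter (fun T => 0 < T ∧ 5 ∣ T), L (4 * (n - T) * T) := by
  rw [← Finset.sum_filter, Finset.mul_sum]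
  symm
  refine Finset.sum_nbij (fun T : ℕ => 2 * T) ?_ ?_ ?_ ?_
  · intro T hT
    rw [mem_filter, mem_range] at hT
    rw [mem_filter, mem_filter, mem_range]
    omega
  · intro T _ T' _ h
    have h' : 2 * T = 2 * T' := h
    omega
  · intro T hT
    rw [mem_coe, mem_filter, mem_filter, mem_range] at hT
    obtain ⟨⟨b1, b2, b3⟩, k, hk⟩ := hT
    refine ⟨k, ?_, hk.symm⟩
    rw [mem_coe, mem_filter, mem_range]
    omega
  · intro T hT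
    rw [mem_filter, mem_range] at hT
    have h6 : 4 * (n - T) * T = (2 * n - 2 * T) * (2 * T) := by
      have h7 : 2 * n - 2 * T = 2 * (n - T) := by omega
      rw [h7]
      ring
    rw [h6]

/-- **DIAG5** -/
theorem t_DIAG5 (h1b : S_C1B) (h2a : S_C25A) (h2b : S_C25B) (hPC : S_PC5) (hCP : S_CP35)
    (hR : S_REL5) (hHE : S_HE) : S_DIAG5 := by
  intro n hn
  obtain ⟨hs, h4, h3, h5⟩ := id hn
  have hn0 : 0 < n := Nat.pos_of_ne_zero hs.ne_zero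
  have hC : ∀ n2 : ℕ, n2 % 3 = 2 → ∀ (b : ℤ) (D : ℕ), ¬ (3 : ℤ) ∣ b → 0 < D →
      (D : ℤ) = n * n2 - b ^ 2 →
      (cp n b n2 : ℤ) - cp3 n b n2 = 6 * (fun (_ : ℤ) (D : ℕ) => lc5 n D) b D :=
    fun n2 h b D hb hD hDD => hCP n n2 b D hs h4 h3 h h5 hb hD hDD
  have hC' : ∀ n2 : ℕ, n2 % 3 = 2 → ∀ (b : ℤ) (D : ℕ), (3 : ℤ) ∣ b → 0 < D →
      (D : ℤ) = n * n2 - b ^ 2 → (cp n b n2 : ℤ) = 3 * (fun (_ : ℤ) (D : ℕ) => lc5 n D) b D := by
    intro n2 h b D hb hD hDD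
    simp only
    rw [lc5_eq n (D_mod3 h3 h hb hDD)]
    exact hPC n n2 b D hs h4 h5 hD hDD
  have hz : ∀ n2 N : ℕ, n * n2 = N ^ 2 → ∀ (b : ℤ) (D : ℕ), ¬ (2 : ℤ) ∣ N - b → 0 < D →
      (D : ℤ) = n * n2 - b ^ 2 → (fun (_ : ℤ) (D : ℕ) => lc5 n D) b D = 0 :=
    fun n2 N hN b D hb _ hDD => lc5_odd n D (odd_D hN b D hb hDD)
  have k1 := BIL_5 hR (fun _ D => lc5 n D) (hC n h3) (hC' n h3) (hz n n (sq n).symm)
    (fun _ D h => lc5_n5 n D h) (sq n).symm hn0 h5 h3 h3 h5 h5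
  have k2 := BIL_5 hR (n2 := 4 * n) (N := 2 * n) (fun _ D => lc5 n D) (hC (4 * n) (by omega))
    (hC' (4 * n) (by omega)) (hz (4 * n) (2 * n) (by ring))
    (fun _ D h => lc5_n5 n D h) (by ring) (by omega) (by omega) h3 (by omega) h5 (by omega)
  obtain ⟨k3, k4⟩ := hHE n h4 h3
  have e4 : ((4 * n : ℕ) : ℤ) = 4 * (n : ℤ) := by push_cast; rfl
  rw [e4] at k2
  have k5 : cc (4 * n) = -(1 + ep2 n) * cc n := by
    unfold cc
    have m1 : ¬ (4 * (n : ℤ)) % 3 = 0 := by omega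
    have m2 : ¬ (n : ℤ) % 3 = 0 := by omega
    rw [if_neg m1, if_neg m2, k3, k4]
    ring
  rw [k3, k5] at k2
  have w1 : 2 * WXA (fun u => jacobiSym u n) n n =
      -∑ T ∈ (range n).filter (fun T => 0 < T ∧ 5 ∣ T), lc5 n (4 * (n - T) * T) := by
    rw [WXA_odd h1b hs h4 (Or.inl rfl), sum_T0 (fun T => WWA n (n - T) T) (WWA_T0 n _),
      ← Finset.sum_neg_distrib, Finset.mul_sum]
    refine Finset.sum_congr rfl fun T hT => ?_
    rw [mem_filter, mem_range] at hT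
    exact h2a n (Or.inr hn) T hT.2.1 hT.1 hT.2.2 (fun h => by omega)
  have w2 : 2 * WXA (fun u => jacobiSym u n) n (2 * n) =
      -(∑ T ∈ (range (2 * n)).filter (fun T => 0 < T ∧ 5 ∣ T), lc5 n (4 * (2 * n - T) * T) +
        ep2 n * ∑ T ∈ (range n).filter (fun T => 0 < T ∧ 5 ∣ T), lc5 n (4 * (n - T) * T)) := by
    rw [WXA_odd h1b hs h4 (Or.inr rfl), sum_T0 (fun T => WWA n (2 * n - T) T) (WWA_T0 n _),
      ← sum_dbl5, ← Finset.sum_add_distrib, ← Finset.sum_neg_distrib, Finset.mul_sum]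
    refine Finset.sum_congr rfl fun T hT => ?_
    rw [mem_filter, mem_range] at hT
    exact h2b n (Or.inr hn) T hT.2.1 hT.1 hT.2.2 (fun h => by omega)
  rw [CA.t_C1AA n (by omega) (fun u => jacobiSym u n) (fun u => C.jac_odd h4 u)]
  generalize (∑ T ∈ (range n).filter (fun T => 0 < T ∧ 5 ∣ T), lc5 n (4 * (n - T) * T)) = S1
    at k1 w1 w2
  generalize (∑ T ∈ (range (2 * n)).filter (fun T => 0 < T ∧ 5 ∣ T),
    lc5 n (4 * (2 * n - T) * T)) = S2 at k2 w2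
  generalize WXA (fun u => jacobiSym u n) n n = W1 at w1 ⊢
  generalize WXA (fun u => jacobiSym u n) n (2 * n) = W2 at w2 ⊢
  have k7 : 2 * (9 * (2 * (W2 - 3 * W1))) = 2 * -(2 * cc n ^ 2) := by
    linear_combination (3 - ep2 n) * k1 - k2 + 18 * w2 - 54 * w1
  linarith

/-- **DIAG5E** -/
theorem t_DIAG5E (h1b : S_C1BE) (h2 : S_C25E) (hPC : S_PC5E) (hCP : S_CP35E) (hR : S_REL5)
    (hHE : S_HEE) : S_DIAG5E := by
  intro n hn
  obtain ⟨hev, h3, h5⟩ := id hn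
  obtain ⟨m, rfl, hs, hm⟩ := id hev
  have hm0 : 0 < m := Nat.pos_of_ne_zero hs.ne_zero
  have hC : ∀ n2 : ℕ, 4 ∣ n2 → n2 % 3 = 2 → ∀ (b : ℤ) (D : ℕ), ¬ (3 : ℤ) ∣ b → 0 < D →
      (D : ℤ) = (4 * m : ℕ) * n2 - b ^ 2 →
      (cp (4 * m : ℕ) b n2 : ℤ) - cp3 (4 * m : ℕ) b n2 = 6 * lc5E (4 * m) b D :=
    fun n2 h4 h b D hb hD hDD => hCP (4 * m) n2 b D hev h3 h4 h h5 hb hD hDD
  have hC' : ∀ n2 : ℕ, 4 ∣ n2 → n2 % 3 = 2 → ∀ (b : ℤ) (D : ℕ), (3 : ℤ) ∣ b → 0 < D →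
      (D : ℤ) = (4 * m : ℕ) * n2 - b ^ 2 → (cp (4 * m : ℕ) b n2 : ℤ) = 3 * lc5E (4 * m) b D := by
    intro n2 h4 h b D hb hD hDD
    rw [lc5E_eq (4 * m) b (D_mod3 h3 h hb hDD)]
    exact hPC (4 * m) n2 b D hev h5 h4 hD hDD
  have hz : ∀ n2 N : ℕ, 2 ∣ N → ∀ (b : ℤ) (D : ℕ), ¬ (2 : ℤ) ∣ N - b → 0 < D →
      (D : ℤ) = (4 * m : ℕ) * n2 - b ^ 2 → lc5E (4 * m) b D = 0 :=
    fun n2 N hN b D hb _ _ => lc5E_odd _ D (by omega)
  have k1 := BIL_5 hR (lc5E (4 * m)) (hC (4 * m) (dvd_mul_right 4 m) h3)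
    (hC' (4 * m) (dvd_mul_right 4 m) h3)
    (hz (4 * m) (4 * m) (by omega)) (lc5E_n5 (4 * m)) (sq (4 * m)).symm (by omega) h5 h3 h3 h5 h5
  have k2 := BIL_5 hR (n2 := 4 * (4 * m)) (N := 2 * (4 * m)) (lc5E (4 * m))
    (hC (4 * (4 * m)) (dvd_mul_right 4 _) (by omega))
    (hC' (4 * (4 * m)) (dvd_mul_right 4 _) (by omega))
    (hz (4 * (4 * m)) (2 * (4 * m)) (by omega)) (lc5E_n5 (4 * m)) (by ring)
    (by omega) (by omega) h3 (by omega) h5 (by omega)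
  obtain ⟨k3, k4⟩ := hHE m hm h3
  have e16 : ((4 * (4 * m) : ℕ) : ℤ) = 16 * (m : ℤ) := by push_cast; ring
  have e4 : ((4 * m : ℕ) : ℤ) = 4 * (m : ℤ) := by push_cast; ring
  have k5 : cc (16 * m) = -cc (4 * m) := by
    unfold cc
    have m1 : ¬ (16 * (m : ℤ)) % 3 = 0 := by omega
    have m2 : ¬ (4 * (m : ℤ)) % 3 = 0 := by omega
    rw [if_neg m1, if_neg m2, k3, k4]
    ring
  rw [e16, e4, k3, k5] at k2
  rw [e4] at k1
  have w : ∀ N : ℕ, (N = 4 * m ∨ N = 2 * (4 * m)) → 2 * WXA (chE (4 * m)) (4 * m) N =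
      -∑ T ∈ (range N).filter (fun T => 0 < T ∧ 5 ∣ T),
        lc5E (4 * m) ((N : ℤ) - 2 * T) (4 * (N - T) * T) := by
    intro N hN
    rw [WXA_even h1b hev hN, sum_T0 (fun T => WWAe (4 * m) (N - T) T)
      (WWAe_T0 (4 * m) _), ← Finset.sum_neg_distrib,
      Finset.mul_sum]
    refine Finset.sum_congr rfl fun T hT => ?_
    rw [mem_filter, mem_range] at hT
    rw [h2 (4 * m) (Or.inr hn) N hN T hT.2.1 hT.1 hT.2.2 (fun h => by omega)]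
    have hb : tb ((T : ℤ) - ((N - T : ℕ) : ℤ)) = tb ((N : ℤ) - 2 * T) := by
      have e : (T : ℤ) - ((N - T : ℕ) : ℤ) = -((N : ℤ) - 2 * T) := by
        rw [Nat.cast_sub hT.1.le]
        ring
      rw [e, tb_neg]
    unfold lc5E
    rw [hb]
  have w1 := w _ (Or.inl rfl)
  have w2 := w _ (Or.inr rfl)
  rw [CA.t_C1AA (4 * m) (by omega) (chE (4 * m)) (fun u => C.chE_odd hev u)]
  have e8 : ((2 * (4 * m) : ℕ) : ℤ) = 2 * (4 * (m : ℤ)) := by push_cast; ring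
  rw [e4] at w1
  rw [e8] at k2 w2
  rw [e4]
  generalize (∑ T ∈ (range (4 * m)).filter (fun T => 0 < T ∧ 5 ∣ T),
    lc5E (4 * m) (4 * (m : ℤ) - 2 * T) (4 * (4 * m - T) * T)) = S1 at k1 w1
  generalize (∑ T ∈ (range (2 * (4 * m))).filter (fun T => 0 < T ∧ 5 ∣ T),
    lc5E (4 * m) (2 * (4 * (m : ℤ)) - 2 * T) (4 * (2 * (4 * m) - T) * T)) = S2 at k2 w2
  generalize WXA (chE (4 * m)) (4 * m) (4 * m) = W1 at w1 ⊢
  generalize WXA (chE (4 * m)) (4 * m) (2 * (4 * m)) = W2 at w2 ⊢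
  have k7 : 2 * (9 * (2 * (W2 - 3 * W1))) = 2 * -(2 * cc (4 * m) ^ 2) := by
    linear_combination 3 * k1 - k2 + 18 * w2 - 54 * w1
  linarith

end Pool.Agent.N974.P15
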