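import Pool.Agent.N974.P15.SymACore

/-!
# The odd symbol of level `15` at the cusps with denominator divisible by `3`
-/

set_option autoImplicit false

open Finset

namespace Pool.Agent.N974.SymA

open Pool.Agent.N969.P15 Pool.Agent.N973.P15
open Pool.Agent.N974.MF (Symb15)

noncomputable section

/-! ### evaluation of the counting function -/

/-- one term -/
def tA (x M k B : ℤ) : ℤ :=
  if B ^ 2 - 4 * (5 * k) * ((B ^ 2 - 4) / (4 * (5 * k))) = 4 ∧ ¬ (3 : ℤ) ∣ 5 * k ∧
      (B % 10 = 2 ∨ B % 10 = 8) ∧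
      5 * k * x ^ 2 + B * x * M + (B ^ 2 - 4) / (4 * (5 * k)) * M ^ 2 < 0 then
    (if B % 10 = 2 then 1 else -1) *
      (if (2 : ℤ) ∣ 5 * k ∧ (2 : ℤ) ∣ (B ^ 2 - 4) / (4 * (5 * k)) then -1 else 1) else 0

/-- the finite sum -/
def dA (x M K L : ℤ) : ℤ := ∑ k ∈ Icc 1 K, ∑ B ∈ Icc (-L) L, tA x M k B

theorem FA_eq {x M K L : ℤ} (hM : 0 < M) (hK : M ^ 2 ≤ 5 * K) (hL : 2 + 2 * M * |x| ≤ L) :
    FA x M = dA x M K L := by
  classical
  set P : Finset (ℤ × ℤ) := Icc 1 K ×ˢ Icc (-L) L with hP
  set g : ℤ × ℤ → ℤ × ℤ × ℤ := fun p => (5 * p.1, p.2, (p.2 ^ 2 - 4) / (4 * (5 * p.1))) with hg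
  have hginj : Set.InjOn g P := by
    intro p _ p' _ h
    simp only [hg, Prod.mk.injEq] at h
    ext
    · omega
    · exact h.2.1
  have hsupp : Function.support (fun q : ℤ × ℤ × ℤ =>
      if FmA q ∧ 0 < q.1 ∧ q.1 * x ^ 2 + q.2.1 * x * M + q.2.2 * M ^ 2 < 0 then cA q else 0) ⊆
      ((P.image g : Finset (ℤ × ℤ × ℤ)) : Set (ℤ × ℤ × ℤ)) := by
    rintro ⟨A, B, C⟩ hq
    have h : FmA (A, B, C) ∧ 0 < A ∧ A * x ^ 2 + B * x * M + C * M ^ 2 < 0 := by
      by_contra h
      exact hq (if_neg h)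
    obtain ⟨h1, h2, h3⟩ := bound' hM h
    obtain ⟨⟨h4, ⟨k, h5⟩, h6, h7⟩, h8, h9⟩ := h
    simp only at h4 h5 h6 h7
    subst h5
    have hk1 : 1 ≤ k := by omega
    rw [Finset.coe_image]
    refine ⟨(k, B), ?_, ?_⟩
    · rw [Finset.mem_coe, hP, Finset.mem_product, Finset.mem_Icc, Finset.mem_Icc]
      refine ⟨⟨hk1, by linarith⟩, ?_⟩
      -- the bound for B
      have hx : |2 * (5 * k) * x| ≤ 2 * M ^ 2 * |x| := by
        rw [abs_mul, abs_of_pos (by positivity : (0 : ℤ) < 2 * (5 * k))]
        have := abs_nonneg x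
        nlinarith
      obtain ⟨e1, e2⟩ := abs_le.1 hx
      constructor
      · show -L ≤ B
        by_contra hc
        push Not at hc
        have h10 : B + 1 ≤ -(2 + 2 * M * |x|) := by linarith
        nlinarith
      · show B ≤ L
        by_contra hc
        push Not at hc
        have h10 : 2 + 2 * M * |x| ≤ B - 1 := by linarith
        nlinarith
    · simp only [hg, Prod.mk.injEq, true_and]
      have h10 : B ^ 2 - 4 = C * (4 * (5 * k)) := by linarith
      rw [h10, Int.mul_ediv_cancel _ (by positivity)]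
  unfold FA
  rw [finsum_eq_sum_of_support_subset _ hsupp, Finset.sum_image hginj, hP, Finset.sum_product]
  unfold dA
  refine Finset.sum_congr rfl fun k hk => Finset.sum_congr rfl fun B _ => ?_
  have hk1 : 1 ≤ k := (Finset.mem_Icc.1 hk).1
  unfold tA
  simp only [hg]
  by_cases h : B ^ 2 - 4 * (5 * k) * ((B ^ 2 - 4) / (4 * (5 * k))) = 4 ∧ ¬ (3 : ℤ) ∣ 5 * k ∧
      (B % 10 = 2 ∨ B % 10 = 8) ∧
      5 * k * x ^ 2 + B * x * M + (B ^ 2 - 4) / (4 * (5 * k)) * M ^ 2 < 0
  · rw [if_pos h, if_pos ⟨⟨h.1, ⟨k, rfl⟩, h.2.1, h.2.2.1⟩, by positivity, h.2.2.2⟩]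
    rfl
  · rw [if_neg h, if_neg]
    rintro ⟨⟨h1, -, h2, h3⟩, -, h4⟩
    exact h ⟨h1, h2, h3, h4⟩

theorem FA13 : FA 1 3 = -1 := by
  rw [FA_eq (K := 2) (L := 8) (by norm_num) (by norm_num) (by norm_num)]
  decide +kernel

theorem FA115 : FA 1 15 = 0 := by
  rw [FA_eq (K := 45) (L := 32) (by norm_num) (by norm_num) (by norm_num)]
  decide +kernel

theorem FA215 : FA 2 15 = 0 := by
  rw [FA_eq (K := 45) (L := 62) (by norm_num) (by norm_num) (by norm_num)]
  decide +kernel

theorem FA715 : FA 7 15 = 0 := by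
  rw [FA_eq (K := 45) (L := 212) (by norm_num) (by norm_num) (by norm_num)]
  decide +kernel

/-! ### the formula -/

variable {s : ℚ → ℤ} {a : ℕ → ℤ}

/-- the symbol is given by the counting function -/
def Gd (s : ℚ → ℤ) (x M : ℤ) : Prop := 2 * s ((x : ℚ) / M) = s (1 / 3) * G x M

theorem Gd.neg_neg {x M : ℤ} (h : Gd s x M) : Gd s (-x) (-M) := by
  unfold Gd at h ⊢
  rw [G_neg_neg, ← h]
  push_cast
  rw [neg_div_neg_eq]

theorem Gd.neg (H : Symb15 s a) {x M : ℤ} (h : Gd s x M) : Gd s (-x) M := by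
  unfold Gd at h ⊢
  rw [G_neg]
  push_cast
  rw [neg_div, H.neg]
  linear_combination -h

theorem per_int (H : Symb15 s a) (x : ℚ) (m : ℤ) : s (x + m) = s x := by
  induction m using Int.induction_on with
  | zero => simp
  | succ i ih =>
    have h := H.per (x + i)
    push_cast at ih ⊢
    rw [← ih, ← h]
    congr 1
    ring
  | pred i ih =>
    have h := H.per (x + (-(i : ℚ) - 1))
    push_cast at ih ⊢
    rw [← ih, ← h]
    congr 1
    ring

theorem Gd.add (H : Symb15 s a) {x M : ℤ} (hM : M ≠ 0) (m : ℤ) (h : Gd s x M) :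
    Gd s (x + m * M) M := by
  unfold Gd at h ⊢
  have hMq : (M : ℚ) ≠ 0 := by exact_mod_cast hM
  have e : (((x + m * M : ℤ) : ℚ) / M) = (x : ℚ) / M + m := by
    push_cast
    field_simp
  rw [e, per_int H, G_add, ← h]

/-- the step -/
theorem Gd.of_coc (H : Symb15 s a) {A B C D : ℤ} (hdet : A * D - B * (15 * C) = 1) (hC : C ≠ 0)
    {x M : ℤ} (hM : M ≠ 0) (h3 : (3 : ℤ) ∣ M) (hcop : IsCoprime x M)
    (hK : 15 * C * x + D * M ≠ 0)
    (h1 : Gd s (A * x + B * M) (15 * C * x + D * M))
    (h2 : Gd s A (15 * C)) : Gd s x M := by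
  unfold Gd at h1 h2 ⊢
  have e1 := G_coc (a := A) (b := B) (c := 15 * C) (d := D) hdet ⟨C, rfl⟩ (NV_cop hcop h3)
  have e2 := H.aff' hdet hM hK
  have e3 := H.aff_inf hdet hC
  rw [e1, e2] at h1
  push_cast at h2
  rw [e3] at h2
  linear_combination h1 - h2

theorem Gd_of {x M : ℤ} (h3 : (3 : ℤ) ∣ M) (hcop : IsCoprime x M)
    (h : s ((x : ℚ) / M) = -s (1 / 3) * FA x M) : Gd s x M := by
  unfold Gd
  rw [h, G_eq (NV_cop hcop h3)]
  ring

theorem Gd13 : Gd s 1 3 := by
  refine Gd_of (dvd_refl _) (by norm_num) ?_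
  rw [FA13]
  norm_num

theorem Gd115 (H : Symb15 s a) : Gd s 1 15 := by
  refine Gd_of (by norm_num) (by norm_num) ?_
  have h1 := H.aff_inf (A := 1) (B := 0) (C := 1) (D := 1) (by norm_num) (by norm_num)
  have h2 := H.s0
  rw [FA115]
  norm_num at h1 h2 ⊢
  rw [h1, h2]

theorem Gd215 (H : Symb15 s a) : Gd s 2 15 := by
  refine Gd_of (by norm_num) (by norm_num) ?_
  have h1 := H.aff_inf (A := 2) (B := -1) (C := 1) (D := -7) (by norm_num) (by norm_num)
  have h2 := H.s17
  rw [FA215]
  norm_num at h1 h2 ⊢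
  rw [h1, h2]

theorem Gd715 (H : Symb15 s a) : Gd s 7 15 := by
  refine Gd_of (by norm_num) (by norm_num) ?_
  have h1 := H.aff_inf (A := 7) (B := -1) (C := 1) (D := -2) (by norm_num) (by norm_num)
  have h2 := H.s12
  rw [FA715]
  norm_num at h1 h2 ⊢
  rw [h1, h2]

theorem G415 : G 4 15 = 2 * G 1 3 := by
  have h1 := G_coc (a := 11) (b := -3) (c := 15) (d := -4) (by norm_num) (by norm_num)
    (x := 1) (M := 3) (NV_cop (by norm_num) (by norm_num))
  norm_num at h1
  -- G 2 3 = G 1 3 + G 11 15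
  have h2 := G_add (-1) 3 1
  have h3 := G_neg 1 3
  have h4 := G_add (-4) 15 1
  have h5 := G_neg 4 15
  have h6 := G_neg_neg (-2) (-3)
  norm_num at h2 h3 h4 h5 h6
  omega

theorem G1130 : G 11 30 = 2 * G 1 3 := by
  have h1 := G_coc (a := 11) (b := 4) (c := 30) (d := 11) (by norm_num) (by norm_num)
    (x := -1) (M := 3) (NV_cop (by norm_num) (by norm_num))
  have h3 := G_neg 1 3
  norm_num at h1 h3
  omega

theorem Gd415 (H : Symb15 s a) : Gd s 4 15 := by
  have h0 := Gd13 (s := s)
  unfold Gd at h0 ⊢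
  have h1 := H.aff_inf (A := 4) (B := 1) (C := 1) (D := 4) (by norm_num) (by norm_num)
  have h2 := H.s14
  rw [G415]
  norm_num at h0 h1 h2 ⊢
  rw [h1, h2]
  linear_combination 2 * h0

theorem Gd1130 (H : Symb15 s a) : Gd s 11 30 := by
  have h0 := Gd13 (s := s)
  unfold Gd at h0 ⊢
  have h1 := H.aff_inf (A := 11) (B := 4) (C := 2) (D := 11) (by norm_num) (by norm_num)
  have h2 := H.s411
  rw [G1130]
  norm_num at h0 h1 h2 ⊢
  rw [h1, h2]
  linear_combination 2 * h0

theorem Gd_all (H : Symb15 s a) (n : ℕ) : ∀ x M : ℤ, M.natAbs = n → M ≠ 0 → (3 : ℤ) ∣ M →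
    IsCoprime x M → Gd s x M := by
  induction n using Nat.strong_induction_on with
  | _ n ih =>
    intro x M hn hM0 h3 hcop
    -- reduction to positive denominators
    wlog hMp : 0 < M generalizing x M
    · have h1 := this (-x) (-M) (by rw [Int.natAbs_neg, hn]) (neg_ne_zero.2 hM0) (h3.neg_right)
        hcop.neg_neg (by omega)
      have h2 := h1.neg_neg
      rwa [_root_.neg_neg, _root_.neg_neg] at h2
    -- the general step
    have step : ∀ (y : ℤ), IsCoprime y M → 0 < y → 2 * y < M → Gd s y M := by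
      intro y hy hy0 hy1
      have main : ∀ (A B C D : ℤ), A * D - B * (15 * C) = 1 → C ≠ 0 →
          |15 * C * y + D * M| < M → 15 * C * y + D * M ≠ 0 → Gd s A (15 * C) → Gd s y M := by
        intro A B C D hdet hC hlt hK hBD
        refine Gd.of_coc H hdet hC hM0 h3 hy hK ?_ hBD
        refine ih _ ?_ _ _ rfl hK ?_ ?_
        · rw [← hn]
          zify
          rw [abs_of_pos hMp]
          exact hlt
        · exact dvd_add ⟨5 * C * y, by ring⟩ (h3.mul_left D)
        · obtain ⟨u, v, huv⟩ := hy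
          refine ⟨u * D - v * (15 * C), -(u * B) + v * A, ?_⟩
          linear_combination (u * y + v * M) * hdet + huv
      -- points equivalent to infinity by a step
      have base : ∀ m c : ℤ, 0 < c → c * y = m * M → IsCoprime m c → 0 < m → y = m ∧ M = c := by
        intro m c hc he hmc hm
        have h1 : y ∣ m := by
          have : y ∣ m * M := ⟨c, by linarith⟩
          exact hy.dvd_of_dvd_mul_right this
        have h2 : m ∣ y := by
          have : m ∣ c * y := ⟨M, he⟩
          exact hmc.dvd_of_dvd_mul_left this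
        have h4 : y = m := Int.dvd_antisymm hy0.le hm.le h1 h2
        refine ⟨h4, ?_⟩
        rw [h4] at he
        have h5 : m * (M - c) = 0 := by linarith
        rcases mul_eq_zero.1 h5 with h6 | h6 <;> omega
      have c0 : 15 * y < 2 * M ∨ (2 * M ≤ 15 * y ∧ 15 * y < 3 * M) ∨ 15 * y = 3 * M ∨
          (3 * M < 15 * y ∧ 15 * y < 5 * M) ∨ 15 * y = 5 * M ∨
          (5 * M < 15 * y ∧ 15 * y < 6 * M) ∨ 15 * y = 6 * M ∨ 6 * M < 15 * y := by omega
      rcases c0 with c1 | c1 | c1 | c1 | c1 | c1 | c1 | c1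
      · by_cases hz : 15 * y = M
        · obtain ⟨rfl, rfl⟩ := base 1 15 (by norm_num) (by linarith) (by norm_num) (by norm_num)
          exact Gd115 H
        · refine main (-1) 0 1 (-1) (by norm_num) (by norm_num) ?_ (by omega) ?_
          · rw [abs_lt]
            constructor <;> omega
          · exact (Gd115 H).neg H
      · by_cases hz : 15 * y = 2 * M
        · obtain ⟨rfl, rfl⟩ := base 2 15 (by norm_num) (by linarith) (by norm_num) (by norm_num)
          exact Gd215 H
        · refine main 7 (-1) 1 (-2) (by norm_num) (by norm_num) ?_ (by omega) ?_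
          · rw [abs_lt]
            constructor <;> omega
          · exact Gd715 H
      · obtain ⟨-, h5⟩ := base 1 5 (by norm_num) (by linarith) (by norm_num) (by norm_num)
        omega
      · by_cases hz : 15 * y = 4 * M
        · obtain ⟨rfl, rfl⟩ := base 4 15 (by norm_num) (by linarith) (by norm_num) (by norm_num)
          exact Gd415 H
        · refine main (-4) 1 1 (-4) (by norm_num) (by norm_num) ?_ (by omega) ?_
          · rw [abs_lt]
            constructor <;> omega
          · exact (Gd415 H).neg H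
      · obtain ⟨rfl, rfl⟩ := base 1 3 (by norm_num) (by linarith) (by norm_num) (by norm_num)
        exact Gd13
      · by_cases hz : 30 * y = 11 * M
        · obtain ⟨rfl, rfl⟩ := base 11 30 (by norm_num) (by linarith) (by norm_num) (by norm_num)
          exact Gd1130 H
        · refine main (-11) 4 2 (-11) (by norm_num) (by norm_num) ?_ (by omega) ?_
          · rw [abs_lt]
            constructor <;> omega
          · exact (Gd1130 H).neg H
      · obtain ⟨-, h5⟩ := base 2 5 (by norm_num) (by linarith) (by norm_num) (by norm_num)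
        omega
      · by_cases hz : 15 * y = 7 * M
        · obtain ⟨rfl, rfl⟩ := base 7 15 (by norm_num) (by linarith) (by norm_num) (by norm_num)
          exact Gd715 H
        · refine main 2 (-1) 1 (-7) (by norm_num) (by norm_num) ?_ (by omega) ?_
          · rw [abs_lt]
            constructor <;> omega
          · exact Gd215 H
    -- reduce `x` modulo `M`
    obtain ⟨y, m, hxy, hy0, hyM⟩ : ∃ y m : ℤ, x = y + m * M ∧ 0 ≤ y ∧ y < M :=
      ⟨x % M, x / M, by linear_combination -(Int.emod_add_mul_ediv x M), Int.emod_nonneg _ hM0,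
        Int.emod_lt_of_pos _ hMp⟩
    have hcy : IsCoprime y M := by
      rw [hxy] at hcop
      exact (IsCoprime.add_mul_right_left_iff).1 hcop
    have hy00 : y ≠ 0 := by
      rintro rfl
      rw [isCoprime_zero_left, Int.isUnit_iff] at hcy
      omega
    rw [hxy]
    refine Gd.add H hM0 m ?_
    rcases lt_trichotomy (2 * y) M with h1 | h1 | h1
    · exact step y hcy (by omega) h1
    · exfalso
      have h2 : y ∣ M := ⟨2, by linarith⟩
      have h4 := hcy.isUnit_of_dvd' (dvd_refl y) h2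
      rw [Int.isUnit_iff] at h4
      omega
    · have h2 : IsCoprime (M - y) M := by
        have h3 : M - y = -y + 1 * M := by ring
        rw [h3]
        exact (IsCoprime.add_mul_right_left_iff).2 hcy.neg_left
      have h3 := step (M - y) h2 (by omega) (by omega)
      have h4 := (h3.neg H).add H hM0 1
      have e : -(M - y) + 1 * M = y := by ring
      rwa [e] at h4

/-- SYMA -/
theorem t_SYMA : S_SYMA := by
  intro s a H x M hM h3 hcop
  have h1 := Gd_all H M.natAbs x M rfl hM h3 hcop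
  unfold Gd at h1
  rw [G_eq (NV_cop hcop h3)] at h1
  linarith

end

end Pool.Agent.N974.SymA
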